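import Pool.Agent.H60.HED.Defs

/-! # HED, module EXP: the exponential graph -/

set_option autoImplicit false

namespace Pool.Agent.H60.HED

theorem exp_thm (h_LSO : S_LSO) : S_EXP := by
  intro c k V _ G U hU hcov hadj hG
  classical
  refine ⟨V → Fin c, inferInstance,
    SimpleGraph.fromRel (fun t t2 : V → Fin c => ∀ v w, G.Adj v w → t v ≠ t2 w), ?_, ?_⟩
  · rintro ⟨Φ⟩
    have h1 := h_LSO k (k + 1)
      (fun i => ⋃ t ∈ {t : V → Fin c | Φ t = i}, ⋂ v, U v (t v)) ?_ ?_ ?_
    · omega
    · intro i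
      exact isOpen_biUnion fun t _ => isOpen_iInter_of_finite fun v => hU v (t v)
    · intro x hx
      choose t ht using fun v => hcov v x hx
      refine ⟨Φ t, ?_⟩
      simp only [Set.mem_iUnion, Set.mem_iInter]
      exact ⟨t, rfl, ht⟩
    · intro i x hx h2 h3
      simp only [Set.mem_iUnion, Set.mem_iInter] at h2 h3
      obtain ⟨t, ht, ht2⟩ := h2
      obtain ⟨s, hs, hs2⟩ := h3
      have key : ∀ v w, G.Adj v w → t v ≠ s w := by
        intro v w hvw he
        refine hadj v w hvw (t v) x hx (ht2 v) ?_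
        rw [he]
        exact hs2 w
      by_cases hts : t = s
      · subst hts
        exact hG ⟨SimpleGraph.Coloring.mk t fun {v w} hvw => key v w hvw⟩
      · refine Φ.valid (v := t) (w := s) ?_ (ht.trans hs.symm)
        rw [SimpleGraph.fromRel_adj]
        exact ⟨hts, Or.inl key⟩
  · refine ⟨SimpleGraph.Coloring.mk (fun p : V × (V → Fin c) => p.2 p.1) ?_⟩
    rintro ⟨v, t⟩ ⟨w, s⟩ h
    rw [SimpleGraph.fromRel_adj] at h
    have key : ∀ v w t s, G.Adj v w → (SimpleGraph.fromRel (fun t t2 : V → Fin c =>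
        ∀ v w, G.Adj v w → t v ≠ t2 w)).Adj t s → t v ≠ s w := by
      intro v w t s hvw hts
      rw [SimpleGraph.fromRel_adj] at hts
      rcases hts.2 with h | h
      · exact h v w hvw
      · exact (h w v hvw.symm).symm
    rcases h.2 with h | h
    · exact key v w t s h.1 h.2
    · exact (key w v s t h.1 h.2).symm

end Pool.Agent.H60.HED
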