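import Pool.Agent.H60.HED.Defs

/-! # HED, module FIN: the final statement from the product bound -/

set_option autoImplicit false

namespace Pool.Agent.H60.HED

private theorem fin_sub {V : Type} [Fintype V] (G : SimpleGraph V) (n : ℕ) (h : ¬ G.Colorable n) :
    ∃ S : Set V, (G.induce S).chromaticNumber = (n : ℕ∞) := by
  classical
  cases n with
  | zero =>
    refine ⟨∅, ?_⟩
    have : IsEmpty (∅ : Set V) := inferInstance
    simp
  | succ m =>
    have hex : ∃ k : ℕ, ∃ S : Finset V, S.card = k ∧
        ¬ (G.induce (S : Set V)).Colorable m := by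
      refine ⟨_, Finset.univ, rfl, fun hc => h ?_⟩
      obtain ⟨C⟩ := hc
      refine SimpleGraph.Colorable.mono (Nat.le_succ m) ⟨SimpleGraph.Coloring.mk
        (fun v => C ⟨v, by simp⟩) ?_⟩
      intro v w hvw
      exact C.valid (by simpa using hvw)
    obtain ⟨S, hS1, hS2⟩ := Nat.find_spec hex
    have hmin := fun k (hk : k < Nat.find hex) => Nat.find_min hex hk
    have hne : S.Nonempty := by
      rw [Finset.nonempty_iff_ne_empty]
      rintro rfl
      apply hS2
      have : IsEmpty ((∅ : Finset V) : Set V) := by simp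
      exact SimpleGraph.Colorable.of_isEmpty _
    obtain ⟨v, hv⟩ := hne
    have hcard : (S.erase v).card < Nat.find hex := by
      rw [← hS1]
      exact Finset.card_erase_lt_of_mem hv
    have h1 : (G.induce ((S.erase v : Finset V) : Set V)).Colorable m := by
      by_contra hcon
      exact hmin _ hcard ⟨_, rfl, hcon⟩
    obtain ⟨C⟩ := h1
    have h2 : (G.induce (S : Set V)).Colorable (m + 1) := by
      refine ⟨SimpleGraph.Coloring.mk (fun u => if hu : (u : V) = v then Fin.last m else
        (C ⟨u, Finset.mem_coe.2 (Finset.mem_erase.2 ⟨hu, u.2⟩)⟩).castSucc) ?_⟩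
      rintro ⟨a, ha⟩ ⟨b, hb⟩ hab
      have hab' : G.Adj a b := hab
      by_cases h1 : a = v
      · have h2 : b ≠ v := by
          rintro rfl
          exact hab'.ne h1
        simp only [h1, h2, dite_true, dite_false]
        exact (Fin.castSucc_lt_last _).ne'
      · by_cases h2 : b = v
        · simp only [h1, h2, dite_true, dite_false]
          exact (Fin.castSucc_lt_last _).ne
        · simp only [h1, h2, dite_false]
          intro he
          exact C.valid (v := ⟨a, Finset.mem_coe.2 (Finset.mem_erase.2 ⟨h1, ha⟩)⟩)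
            (w := ⟨b, Finset.mem_coe.2 (Finset.mem_erase.2 ⟨h2, hb⟩)⟩)
            hab' (Fin.castSucc_injective _ he)
    refine ⟨S, le_antisymm h2.chromaticNumber_le ?_⟩
    by_contra hcon
    rw [not_le] at hcon
    apply hS2
    have h3 : (G.induce (S : Set V)).chromaticNumber ≤ (m : ℕ∞) := by
      rw [Nat.cast_succ] at hcon
      exact Order.le_of_lt_add_one hcon
    exact SimpleGraph.chromaticNumber_le_iff_colorable.1 h3

theorem fin : S_FIN := by
  intro c _ h n
  classical
  obtain ⟨V, W, hV, hW, G, H, hG, hH, hc⟩ := h n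
  obtain ⟨S, hS⟩ := fin_sub G n hG
  obtain ⟨T, hT⟩ := fin_sub H n hH
  refine ⟨S, T, inferInstance, inferInstance, G.induce S, H.induce T, hS, hT, ?_⟩
  refine SimpleGraph.Colorable.chromaticNumber_le ?_
  obtain ⟨C⟩ := hc
  refine ⟨SimpleGraph.Coloring.mk (fun p : S × T => C ((p.1 : V), (p.2 : W))) ?_⟩
  rintro ⟨a, b⟩ ⟨a', b'⟩ hab
  rw [SimpleGraph.fromRel_adj] at hab
  apply C.valid
  rw [SimpleGraph.fromRel_adj]
  obtain ⟨h1, h2⟩ := hab
  refine ⟨fun he => h1 ?_, ?_⟩
  · simp only [Prod.mk.injEq] at he ⊢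
    exact ⟨Subtype.ext he.1, Subtype.ext he.2⟩
  · rcases h2 with h2 | h2
    · exact Or.inl ⟨h2.1, h2.2⟩
    · exact Or.inr ⟨h2.1, h2.2⟩

end Pool.Agent.H60.HED
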